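import Mathlib
import Pool.Agent.Helper2.LN.Defs2

/-!
# LN, analytic layer: definitions

`Ghat k = {(z, l) : exp l = d_k(z)}`, the covering of `G_k^0` on which `log d_k` is single valued.
-/

set_option autoImplicit false

open Polynomial Pool.Agent.Helper2.LN

namespace Pool.Agent.Helper93.LN

/-- `{(z, l) : exp l = d_k(z)}` -/
def Ghat (k : ℕ) : Set ((Fin (k - 1) → ℂ) × ℂ) := {p | Complex.exp p.2 = (pol k p.1).discr}

/-- functions on `Ghat k` that are holomorphic along every holomorphic curve in `Ghat k` -/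
def HolG (k : ℕ) (u : (Fin (k - 1) → ℂ) × ℂ → ℂ) : Prop :=
  ∀ (Ω : Set ℂ) (γ : ℂ → (Fin (k - 1) → ℂ) × ℂ), IsOpen Ω → DifferentiableOn ℂ γ Ω →
    (∀ t ∈ Ω, γ t ∈ Ghat k) → DifferentiableOn ℂ (fun t => u (γ t)) Ω

/-- every nonvanishing continuous function on `Ghat k` has a continuous logarithm (LOG LEMMA) -/
def LogProp (k : ℕ) : Prop :=
  ∀ u : (Fin (k - 1) → ℂ) × ℂ → ℂ, ContinuousOn u (Ghat k) → (∀ p ∈ Ghat k, u p ≠ 0) →
    ∃ g : (Fin (k - 1) → ℂ) × ℂ → ℂ, ContinuousOn g (Ghat k) ∧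
      ∀ p ∈ Ghat k, Complex.exp (g p) = u p

/-- `G` is a continuous Landau function on `Ghat k`: holomorphic, and `cosh (G p) ^ 2` is never
an integer. -/
structure IsLandau (k : ℕ) (G : (Fin (k - 1) → ℂ) × ℂ → ℂ) : Prop where
  cont : ContinuousOn G (Ghat k)
  hol : HolG k G
  omits : ∀ p ∈ Ghat k, ∀ m : ℤ, Complex.cosh (G p) ^ 2 ≠ m

/-- the period `k (k - 1)` of Landau functions in `l / (2 π i)` -/
def per (k : ℕ) : ℕ := k * (k - 1)

/-- the values of `G` over `z`, named by `r : ℕ` (`L z` is the principal logarithm) -/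
noncomputable def brv (k : ℕ) (G : (Fin (k - 1) → ℂ) × ℂ → ℂ) (z : Fin (k - 1) → ℂ) (r : ℕ) : ℂ :=
  G (z, Complex.log (pol k z).discr + 2 * Real.pi * Complex.I * r)

/-- `∏ (y - G(z, l))` over the `k (k - 1)` values of `l` modulo the period -/
noncomputable def hprod (k : ℕ) (G : (Fin (k - 1) → ℂ) × ℂ → ℂ) (y : ℂ) (z : Fin (k - 1) → ℂ) : ℂ :=
  ∏ r ∈ Finset.range (per k), (y - brv k G z r)

/-- `max |G(z, l)|` over the values of `l`, in the form of a sum -/
noncomputable def bigM (k : ℕ) (G : (Fin (k - 1) → ℂ) × ℂ → ℂ) (z : Fin (k - 1) → ℂ) : ℝ :=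
  ∑ r ∈ Finset.range (per k), ‖brv k G z r‖

end Pool.Agent.Helper93.LN
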