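import Mathlib

set_option autoImplicit false

open Metric Set Filter Topology

namespace Pool.Agent.Helper93.LN

/-- Local form of Bloch's theorem. -/
theorem bloch_local {F : ℂ → ℂ} {a : ℂ} {s M : ℝ} (hs : 0 < s) (hM : 0 < M)
    (hF : DifferentiableOn ℂ F (ball a s)) (ha : ‖deriv F a‖ = M)
    (hb : ∀ z ∈ ball a s, ‖deriv F z‖ ≤ 2 * M) :
    ball (F a) (M * s / 24) ⊆ F '' ball a s := by
  have hF' : DifferentiableOn ℂ (deriv F) (ball a s) := hF.deriv isOpen_ball
  have hmaps : MapsTo (deriv F) (ball a s) (closedBall (deriv F a) (3 * M)) := by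
    intro z hz
    rw [mem_closedBall, dist_eq_norm]
    calc ‖deriv F z - deriv F a‖ ≤ ‖deriv F z‖ + ‖deriv F a‖ := norm_sub_le _ _
      _ ≤ 2 * M + M := by rw [ha]; exact add_le_add (hb z hz) le_rfl
      _ = 3 * M := by ring
  set r : ℝ := s / 6 with hr
  have hrs : r < s := by rw [hr]; linarith
  have hr0 : 0 < r := by rw [hr]; positivity
  have hsub : closedBall a r ⊆ ball a s := closedBall_subset_ball hrs
  -- the function F minus its linear part
  have key : ∀ z ∈ closedBall a r, ‖(F z - deriv F a * z) - (F a - deriv F a * a)‖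
      ≤ (M / 2) * ‖z - a‖ := by
    intro z hz
    refine Convex.norm_image_sub_le_of_norm_deriv_le (𝕜 := ℂ)
      (f := fun w => F w - deriv F a * w) (s := closedBall a r) (C := M / 2) ?_ ?_
      (convex_closedBall a r) (mem_closedBall_self hr0.le) hz
    · intro w hw
      have hd : DifferentiableAt ℂ F w := hF.differentiableAt (isOpen_ball.mem_nhds (hsub hw))
      exact hd.sub ((differentiableAt_const _).mul differentiableAt_id)
    · intro w hw
      have hd : DifferentiableAt ℂ F w := hF.differentiableAt (isOpen_ball.mem_nhds (hsub hw))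
      have h1 : deriv (fun w => F w - deriv F a * w) w = deriv F w - deriv F a := by
        have h2 : HasDerivAt (fun w : ℂ => deriv F a * w) (deriv F a) w := by
          simpa using (hasDerivAt_id w).const_mul (deriv F a)
        exact (hd.hasDerivAt.sub h2).deriv
      rw [h1]
      have h3 := Complex.dist_le_div_mul_dist_of_mapsTo_ball hF' hmaps (hsub hw)
      rw [dist_eq_norm] at h3
      have h4 : dist w a ≤ r := mem_closedBall.1 hw
      calc ‖deriv F w - deriv F a‖ ≤ 3 * M / s * dist w a := h3
        _ ≤ 3 * M / s * r := by gcongr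
        _ = M / 2 := by rw [hr]; field_simp; ring
  have hlow : ∀ z ∈ sphere a r, M * s / 12 ≤ ‖F z - F a‖ := by
    intro z hz
    have hz' : z ∈ closedBall a r := sphere_subset_closedBall hz
    have h1 := key z hz'
    have h2 : ‖z - a‖ = r := by rw [← dist_eq_norm]; exact mem_sphere.1 hz
    have h3 : ‖deriv F a * (z - a)‖ = M * r := by rw [norm_mul, ha, h2]
    have h4 : deriv F a * (z - a) = (F z - F a) - ((F z - deriv F a * z) - (F a - deriv F a * a)) := by
      ring
    have h5 : ‖deriv F a * (z - a)‖ ≤ ‖F z - F a‖ + ‖(F z - deriv F a * z) - (F a - deriv F a * a)‖ := by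
      rw [h4]; exact norm_sub_le _ _
    rw [h3] at h5
    rw [h2] at h1
    have h6 : M * s / 12 = M * r - M / 2 * r := by rw [hr]; ring
    rw [h6]
    linarith
  have hfreq : ∃ᶠ z in 𝓝 a, F z ≠ F a := by
    intro hcon
    have h0 : deriv F a = 0 := by
      have h1 : F =ᶠ[𝓝 a] fun _ => F a := by
        filter_upwards [hcon] with z hz
        exact not_not.1 hz
      rw [h1.deriv_eq]
      simp
    rw [h0, norm_zero] at ha
    exact hM.ne ha
  have hdc : DiffContOnCl ℂ F (ball a r) := by
    refine DifferentiableOn.diffContOnCl (hF.mono ?_)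
    rw [closure_ball a hr0.ne']
    exact hsub
  have h := hdc.ball_subset_image_closedBall hr0 hlow hfreq
  have e : M * s / 12 / 2 = M * s / 24 := by ring
  rw [e] at h
  exact h.trans (image_mono hsub)

/-- Bloch's theorem in the form used here: a holomorphic function on a disc of radius `R` whose
image misses a point of every closed disc of radius `2` has derivative at most `192 / R` at the
centre. -/
theorem bloch_deriv {F : ℂ → ℂ} {c : ℂ} {R : ℝ} (hR : 0 < R)
    (hF : DifferentiableOn ℂ F (ball c R))
    (hN : ∀ z : ℂ, ∃ w ∈ closedBall z 2, w ∉ F '' ball c R) : ‖deriv F c‖ ≤ 192 / R := by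
  by_contra hcon
  rw [not_le] at hcon
  have hpos : 0 < ‖deriv F c‖ := lt_of_le_of_lt (by positivity) hcon
  set r : ℝ := R / 2 with hr
  have hr0 : 0 < r := by rw [hr]; positivity
  have hrR : r < R := by rw [hr]; linarith
  have hsub : closedBall c r ⊆ ball c R := closedBall_subset_ball hrR
  have hF' : DifferentiableOn ℂ (deriv F) (ball c R) := hF.deriv isOpen_ball
  have hcont : ContinuousOn (fun z => ‖deriv F z‖ * (r - dist z c)) (closedBall c r) := by
    refine ContinuousOn.mul ?_ ?_
    · exact (hF'.continuousOn.mono hsub).norm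
    · exact continuousOn_const.sub (continuous_id.dist continuous_const).continuousOn
  obtain ⟨a, ha, hmax⟩ := (isCompact_closedBall c r).exists_isMaxOn
    ⟨c, mem_closedBall_self hr0.le⟩ hcont
  have hac : dist a c ≤ r := mem_closedBall.1 ha
  have hmc : ‖deriv F c‖ * r ≤ ‖deriv F a‖ * (r - dist a c) := by
    have := hmax (mem_closedBall_self hr0.le)
    simpa using this
  have hprod : 0 < ‖deriv F a‖ * (r - dist a c) := lt_of_lt_of_le (by positivity) hmc
  have hda : 0 < r - dist a c := by
    rcases (sub_nonneg.2 hac).eq_or_lt with h | h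
    · rw [← h, mul_zero] at hprod; exact absurd hprod (lt_irrefl _)
    · exact h
  have hMa : 0 < ‖deriv F a‖ := by
    rcases (norm_nonneg (deriv F a)).eq_or_lt with h | h
    · rw [← h, zero_mul] at hprod; exact absurd hprod (lt_irrefl _)
    · exact h
  set s : ℝ := (r - dist a c) / 2 with hs
  have hs0 : 0 < s := by rw [hs]; positivity
  have hball : ball a s ⊆ closedBall c r := by
    intro z hz
    rw [mem_closedBall]
    have h1 : dist z c ≤ dist z a + dist a c := dist_triangle _ _ _
    have h2 : dist z a < s := mem_ball.1 hz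
    rw [hs] at h2
    linarith
  have hb : ∀ z ∈ ball a s, ‖deriv F z‖ ≤ 2 * ‖deriv F a‖ := by
    intro z hz
    have h1 := hmax (hball hz)
    simp only [mem_setOf_eq] at h1
    have h2 : s ≤ r - dist z c := by
      have h3 : dist z c ≤ dist z a + dist a c := dist_triangle _ _ _
      have h4 : dist z a < s := mem_ball.1 hz
      have h5 : r - dist a c = 2 * s := by rw [hs]; ring
      linarith
    have h6 : ‖deriv F a‖ * (r - dist a c) = 2 * ‖deriv F a‖ * s := by rw [hs]; ring
    rw [h6] at h1
    have h7 : ‖deriv F z‖ * s ≤ ‖deriv F z‖ * (r - dist z c) :=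
      mul_le_mul_of_nonneg_left h2 (norm_nonneg _)
    exact le_of_mul_le_mul_right (h7.trans h1) hs0
  have himg := bloch_local hs0 hMa (hF.mono (hball.trans hsub)) rfl hb
  obtain ⟨w, hw, hwn⟩ := hN (F a)
  refine hwn ?_
  have hbig : 2 < ‖deriv F a‖ * s / 24 := by
    have h1 : ‖deriv F a‖ * s = ‖deriv F a‖ * (r - dist a c) / 2 := by rw [hs]; ring
    have h2 : 192 < ‖deriv F c‖ * R := by
      rwa [div_lt_iff₀ hR] at hcon
    have h3 : ‖deriv F c‖ * R = 2 * (‖deriv F c‖ * r) := by rw [hr]; ring
    rw [h1]
    linarith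
  have hw' : w ∈ ball (F a) (‖deriv F a‖ * s / 24) := by
    rw [mem_ball]
    exact lt_of_le_of_lt (mem_closedBall.1 hw) hbig
  exact (image_mono (hball.trans hsub)) (himg hw')

/-- An entire function whose image misses a point of every closed disc of radius `2` is constant. -/
theorem entire_constant_of_net {F : ℂ → ℂ} (hF : Differentiable ℂ F)
    (hN : ∀ z : ℂ, ∃ w ∈ closedBall z 2, w ∉ range F) (a b : ℂ) : F a = F b := by
  have h0 : ∀ c, deriv F c = 0 := by
    intro c
    by_contra hne
    have hpos : 0 < ‖deriv F c‖ := norm_pos_iff.2 hne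
    have h1 : ∀ R : ℝ, 0 < R → ‖deriv F c‖ ≤ 192 / R := by
      intro R hR
      refine bloch_deriv hR hF.differentiableOn fun z => ?_
      obtain ⟨w, hw, hwn⟩ := hN z
      exact ⟨w, hw, fun h => hwn (image_subset_range _ _ h)⟩
    have h2 := h1 (193 / ‖deriv F c‖) (by positivity)
    rw [div_div_eq_mul_div, le_div_iff₀ (by norm_num : (0:ℝ) < 193)] at h2
    nlinarith
  exact is_const_of_deriv_eq_zero hF h0 a b

end Pool.Agent.Helper93.LN
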