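import Mathlib
import Pool.Agent.Helper93.LN.Bloch

set_option autoImplicit false

open Metric Set Filter Topology

namespace Pool.Agent.Helper93.LN

theorem two_lt_cosh_one_sq : 2 < Real.cosh 1 ^ 2 := by
  have h1 := Real.exp_one_gt_d9
  have h2 := Real.exp_neg_one_gt_d9
  have h3 : Real.cosh 1 = (Real.exp 1 + Real.exp (-1)) / 2 := Real.cosh_eq 1
  rw [h3]
  nlinarith

/-- real part of the net -/
theorem exists_cosh_sq_near {x : ℝ} (hx : 0 ≤ x) :
    ∃ a : ℝ, ∃ m : ℤ, Real.cosh a ^ 2 = m ∧ a ≤ x ∧ x ≤ a + 1 ∧ 0 ≤ a := by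
  have hc1 : 1 ≤ Real.cosh x ^ 2 := one_le_pow₀ (Real.one_le_cosh x)
  set m : ℤ := ⌊Real.cosh x ^ 2⌋ with hm
  have hm1 : (1 : ℝ) ≤ m := by
    have : (1 : ℤ) ≤ m := by rw [hm]; exact Int.le_floor.2 (by simpa using hc1)
    exact_mod_cast this
  have hmx : (m : ℝ) ≤ Real.cosh x ^ 2 := Int.floor_le _
  have hmx' : Real.cosh x ^ 2 < m + 1 := Int.lt_floor_add_one _
  have hcont : ContinuousOn (fun a : ℝ => Real.cosh a ^ 2) (Icc 0 x) :=
    (Real.continuous_cosh.pow 2).continuousOn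
  have hmem : (m : ℝ) ∈ Icc (Real.cosh 0 ^ 2) (Real.cosh x ^ 2) := by
    rw [Real.cosh_zero]
    exact ⟨by simpa using hm1, hmx⟩
  obtain ⟨a, ha, ha2⟩ := intermediate_value_Icc hx hcont hmem
  refine ⟨a, m, ha2, ha.2, ?_, ha.1⟩
  by_contra hcon
  rw [not_le] at hcon
  have hca : 1 ≤ Real.cosh a := Real.one_le_cosh a
  have hsa : 0 ≤ Real.sinh a := Real.sinh_nonneg_iff.2 ha.1
  have hs1 : 0 ≤ Real.sinh 1 := Real.sinh_nonneg_iff.2 zero_le_one
  have hc : Real.cosh a * Real.cosh 1 ≤ Real.cosh (a + 1) := by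
    rw [Real.cosh_add]
    nlinarith [mul_nonneg hsa hs1]
  have hc0 : Real.cosh (a + 1) ≤ Real.cosh x := by
    rw [Real.cosh_le_cosh, abs_of_nonneg (by linarith [ha.1]), abs_of_nonneg hx]
    exact hcon.le
  have hc2 : (Real.cosh a * Real.cosh 1) ^ 2 ≤ Real.cosh x ^ 2 := by
    have h0 : 0 ≤ Real.cosh a * Real.cosh 1 := by
      have := Real.one_le_cosh 1
      positivity
    exact pow_le_pow_left₀ h0 (hc.trans hc0) 2
  have ha3 : Real.cosh a ^ 2 = m := ha2
  rw [mul_pow, ha3] at hc2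
  have h2 := two_lt_cosh_one_sq
  nlinarith

/-- Every closed disc of radius `2` contains a point where `cosh ^ 2` is an integer. -/
theorem exists_net (z : ℂ) : ∃ w ∈ closedBall z 2, ∃ m : ℤ, Complex.cosh w ^ 2 = m := by
  obtain ⟨a, m, ham, hax, hxa, ha0⟩ := exists_cosh_sq_near (abs_nonneg z.re)
  set j : ℤ := round (z.im / Real.pi) with hj
  have hpi := Real.pi_pos
  have hjy : |z.im - Real.pi * j| ≤ Real.pi / 2 := by
    have h1 := abs_sub_round (z.im / Real.pi)
    have h2 : z.im - Real.pi * j = Real.pi * (z.im / Real.pi - j) := by field_simp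
    rw [h2, abs_mul, abs_of_pos hpi]
    nlinarith
  set b : ℝ := if 0 ≤ z.re then a else -a with hb
  have hb2 : Real.cosh b = Real.cosh a := by
    rw [hb]; split_ifs with h
    · rfl
    · exact Real.cosh_neg a
  have hbx : |z.re - b| ≤ 1 := by
    rw [hb]; split_ifs with h
    · rw [abs_of_nonneg h] at hax hxa
      rw [abs_le]; constructor <;> linarith
    · have h' := not_le.1 h
      rw [abs_of_neg h'] at hax hxa
      rw [abs_le]; constructor <;> linarith
  refine ⟨(b : ℂ) + (Real.pi * j : ℝ) * Complex.I, ?_, m, ?_⟩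
  · rw [mem_closedBall, dist_comm, dist_eq_norm]
    have h1 : ‖z - ((b : ℂ) + (Real.pi * j : ℝ) * Complex.I)‖ ^ 2
        = (z.re - b) ^ 2 + (z.im - Real.pi * j) ^ 2 := by
      rw [← Complex.normSq_eq_norm_sq, Complex.normSq_apply]
      simp
      ring
    have h2 : (z.re - b) ^ 2 ≤ 1 := by
      rw [← sq_abs]; nlinarith [abs_nonneg (z.re - b)]
    have h3 : (z.im - Real.pi * j) ^ 2 ≤ (Real.pi / 2) ^ 2 := by
      rw [← sq_abs]
      exact pow_le_pow_left₀ (abs_nonneg _) hjy 2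
    have h4 : Real.pi < 3.15 := Real.pi_lt_d2
    have h5 : ‖z - ((b : ℂ) + (Real.pi * j : ℝ) * Complex.I)‖ ^ 2 ≤ 2 ^ 2 := by
      rw [h1]; nlinarith
    exact le_of_sq_le_sq h5 (by norm_num)
  · rw [Complex.cosh_add, Complex.cosh_mul_I, Complex.sinh_mul_I, ← Complex.ofReal_cosh, ← Complex.ofReal_cos,
      ← Complex.ofReal_sin]
    have hs : Real.sin (Real.pi * j) = 0 := by
      rw [mul_comm]; exact Real.sin_int_mul_pi j
    have hc : Real.cos (Real.pi * j) ^ 2 = 1 := by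
      have := Real.sin_sq_add_cos_sq (Real.pi * j)
      rw [hs] at this
      linarith
    rw [hs]
    simp only [Complex.ofReal_zero, mul_zero, zero_mul, add_zero]
    rw [mul_pow, ← Complex.ofReal_pow, ← Complex.ofReal_pow, hc, hb2, ham]
    simp

/-- Landau's bound: if `cosh (G z) ^ 2` is never an integer then the derivative of `G` at the
centre of a disc of radius `R` is at most `192 / R`. -/
theorem landau_deriv {G : ℂ → ℂ} {c : ℂ} {R : ℝ} (hR : 0 < R)
    (hG : DifferentiableOn ℂ G (ball c R))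
    (hN : ∀ z ∈ ball c R, ∀ m : ℤ, Complex.cosh (G z) ^ 2 ≠ m) : ‖deriv G c‖ ≤ 192 / R := by
  refine bloch_deriv hR hG fun z => ?_
  obtain ⟨w, hw, m, hm⟩ := exists_net z
  refine ⟨w, hw, ?_⟩
  rintro ⟨y, hy, rfl⟩
  exact hN y hy m hm

end Pool.Agent.Helper93.LN
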