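import Mathlib
import Pool.Agent.Helper93.LN.Net
import Pool.Agent.Helper93.LN.HDefs

/-!
# LN, analytic layer: continuous logarithms of holomorphic functions are holomorphic;
Landau functions; little Picard theorem on `ℂ`.
-/

set_option autoImplicit false

open Metric Set Filter Topology Polynomial Pool.Agent.Helper2.LN

namespace Pool.Agent.Helper93.LN

/-- A continuous logarithm of a holomorphic function is holomorphic. -/
theorem differentiableOn_of_exp {Ω : Set ℂ} (hΩ : IsOpen Ω) {g u : ℂ → ℂ} (hg : ContinuousOn g Ω)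
    (hu : DifferentiableOn ℂ u Ω) (h : ∀ t ∈ Ω, Complex.exp (g t) = u t) :
    DifferentiableOn ℂ g Ω := by
  intro t0 ht0
  have hgc : ContinuousAt g t0 := hg.continuousAt (hΩ.mem_nhds ht0)
  have hud : DifferentiableAt ℂ u t0 := hu.differentiableAt (hΩ.mem_nhds ht0)
  have hu0 : u t0 ≠ 0 := by rw [← h t0 ht0]; exact Complex.exp_ne_zero _
  -- near t0, g = g t0 + log (u / u t0)
  have hev : ∀ᶠ t in 𝓝 t0, g t = g t0 + Complex.log (u t / u t0) := by
    have h1 : ∀ᶠ t in 𝓝 t0, ‖g t - g t0‖ < Real.pi := by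
      have h2 : Tendsto (fun t => ‖g t - g t0‖) (𝓝 t0) (𝓝 0) := by
        have h3 : Tendsto (fun t => ‖g t - g t0‖) (𝓝 t0) (𝓝 ‖g t0 - g t0‖) :=
          (hgc.tendsto.sub tendsto_const_nhds).norm
        simpa using h3
      exact h2.eventually (gt_mem_nhds Real.pi_pos)
    filter_upwards [h1, hΩ.mem_nhds ht0] with t ht htΩ
    have h4 : u t / u t0 = Complex.exp (g t - g t0) := by
      rw [Complex.exp_sub, h t htΩ, h t0 ht0]
    have h5 : |(g t - g t0).im| < Real.pi := lt_of_le_of_lt (Complex.abs_im_le_norm _) ht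
    rw [abs_lt] at h5
    rw [h4, Complex.log_exp h5.1 h5.2.le]
    ring
  have hd : DifferentiableAt ℂ (fun t => g t0 + Complex.log (u t / u t0)) t0 := by
    refine (differentiableAt_const _).add ?_
    refine (hud.div_const _).clog ?_
    rw [div_self hu0]
    exact Complex.one_mem_slitPlane
  exact (hd.congr_of_eventuallyEq hev).differentiableWithinAt

theorem holG_of_exp {k : ℕ} {g u : (Fin (k - 1) → ℂ) × ℂ → ℂ} (hg : ContinuousOn g (Ghat k))
    (hu : HolG k u) (h : ∀ p ∈ Ghat k, Complex.exp (g p) = u p) : HolG k g := by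
  intro Ω γ hΩ hγ hm
  exact differentiableOn_of_exp hΩ (hg.comp hγ.continuousOn hm) (hu Ω γ hΩ hγ hm)
    (fun t ht => h _ (hm t ht))

/-- The algebra of Landau's trick. -/
theorem landau_algebra {a b w : ℂ} {m : ℂ} (ha : a ^ 2 = m) (hb : b ^ 2 = m - 1)
    (hw : Complex.exp w = a - b) : Complex.cosh w ^ 2 = m := by
  have h1 : (a - b) * (a + b) = 1 := by
    have : (a - b) * (a + b) = a ^ 2 - b ^ 2 := by ring
    rw [this, ha, hb]; ring
  have h2 : Complex.exp (-w) = a + b := by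
    rw [Complex.exp_neg, hw]
    exact inv_eq_of_mul_eq_one_right h1
  have h3 : Complex.cosh w = a := by
    rw [Complex.cosh, h2, hw]; ring
  rw [h3, ha]

theorem half_exp_sq (z : ℂ) : Complex.exp (z / 2) ^ 2 = Complex.exp z := by
  rw [← Complex.exp_nat_mul]; congr 1; push_cast; ring

theorem two_pi_I_ne : (2 * Real.pi * Complex.I : ℂ) ≠ 0 := by
  simp [Real.pi_ne_zero, Complex.I_ne_zero]

/-- `exp (2 π i m) ≠ 1` implies that `m` is not an integer -/
theorem ne_int_of_exp_ne_one {m : ℂ} (h : Complex.exp (2 * Real.pi * Complex.I * m) ≠ 1) (j : ℤ) :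
    m ≠ j := by
  rintro rfl
  apply h
  rw [mul_comm]
  exact Complex.exp_int_mul_two_pi_mul_I j

/-- A function omitting `0` and `1` on `Ghat k` gives a Landau function. -/
theorem exists_landau {k : ℕ} (hL : LogProp k) {v : (Fin (k - 1) → ℂ) × ℂ → ℂ}
    (hc : ContinuousOn v (Ghat k)) (hh : HolG k v) (h0 : ∀ p ∈ Ghat k, v p ≠ 0)
    (h1 : ∀ p ∈ Ghat k, v p ≠ 1) :
    ∃ G, IsLandau k G ∧ ∀ p ∈ Ghat k,
      Complex.exp (2 * Real.pi * Complex.I * Complex.cosh (G p) ^ 2) = v p := by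
  obtain ⟨g1, hg1c, hg1⟩ := hL v hc h0
  have hg1h : HolG k g1 := holG_of_exp hg1c hh hg1
  set m : (Fin (k - 1) → ℂ) × ℂ → ℂ := fun p => g1 p / (2 * Real.pi * Complex.I) with hm
  have hexp : ∀ p ∈ Ghat k, Complex.exp (2 * Real.pi * Complex.I * m p) = v p := by
    intro p hp
    rw [hm]
    simp only
    rw [mul_div_cancel₀ _ two_pi_I_ne, hg1 p hp]
  have hne : ∀ p ∈ Ghat k, ∀ j : ℤ, m p ≠ j := fun p hp j =>
    ne_int_of_exp_ne_one (by rw [hexp p hp]; exact h1 p hp) j
  have hmc : ContinuousOn m (Ghat k) := hg1c.div_const _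
  have hmh : HolG k m := fun Ω γ hΩ hγ hmm => (hg1h Ω γ hΩ hγ hmm).div_const _
  obtain ⟨g2, hg2c, hg2⟩ := hL m hmc (fun p hp => by simpa using hne p hp 0)
  have hg2h : HolG k g2 := holG_of_exp hg2c hmh hg2
  obtain ⟨g3, hg3c, hg3⟩ := hL (fun p => m p - 1) (hmc.sub continuousOn_const)
    (fun p hp => sub_ne_zero.2 (by simpa using hne p hp 1))
  have hg3h : HolG k g3 := holG_of_exp hg3c
    (fun Ω γ hΩ hγ hmm => (hmh Ω γ hΩ hγ hmm).sub_const _) hg3
  have ha : ∀ p ∈ Ghat k, Complex.exp (g2 p / 2) ^ 2 = m p := fun p hp => by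
    rw [half_exp_sq, hg2 p hp]
  have hb : ∀ p ∈ Ghat k, Complex.exp (g3 p / 2) ^ 2 = m p - 1 := fun p hp => by
    rw [half_exp_sq, hg3 p hp]
  have hab : ∀ p ∈ Ghat k, Complex.exp (g2 p / 2) - Complex.exp (g3 p / 2) ≠ 0 := by
    intro p hp h
    have h2 := ha p hp
    rw [sub_eq_zero.1 h, hb p hp] at h2
    have : (1 : ℂ) = 0 := by linear_combination -h2
    exact one_ne_zero this
  obtain ⟨G, hGc, hG⟩ := hL (fun p => Complex.exp (g2 p / 2) - Complex.exp (g3 p / 2))
    (((Complex.continuous_exp.comp_continuousOn (hg2c.div_const _))).sub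
      (Complex.continuous_exp.comp_continuousOn (hg3c.div_const _))) hab
  have hGh : HolG k G := holG_of_exp hGc (fun Ω γ hΩ hγ hmm =>
    (((hg2h Ω γ hΩ hγ hmm).div_const _).cexp).sub (((hg3h Ω γ hΩ hγ hmm).div_const _).cexp)) hG
  have hcosh : ∀ p ∈ Ghat k, Complex.cosh (G p) ^ 2 = m p := fun p hp =>
    landau_algebra (ha p hp) (hb p hp) (hG p hp)
  refine ⟨G, ⟨hGc, hGh, fun p hp j => by rw [hcosh p hp]; exact hne p hp j⟩, fun p hp => ?_⟩
  rw [hcosh p hp]
  exact hexp p hp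

theorem isSimplyConnected_of_convex {s : Set ℂ} (hs : Convex ℝ s) (hne : s.Nonempty) :
    IsSimplyConnected s := by
  have := hs.contractibleSpace hne
  show SimplyConnectedSpace s
  infer_instance

/-- Nonvanishing holomorphic functions on open convex sets have holomorphic logarithms with
prescribed value at one point. -/
theorem exists_log_on_convex {s : Set ℂ} (hs : Convex ℝ s) (hso : IsOpen s) {u : ℂ → ℂ}
    (hu : DifferentiableOn ℂ u s) (h0 : ∀ z ∈ s, u z ≠ 0) {t0 l0 : ℂ} (ht0 : t0 ∈ s)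
    (hl0 : Complex.exp l0 = u t0) :
    ∃ g : ℂ → ℂ, DifferentiableOn ℂ g s ∧ (∀ z ∈ s, Complex.exp (g z) = u z) ∧ g t0 = l0 := by
  obtain ⟨g, hgc, hg⟩ := Complex.exists_continuousOn_eqOn_exp_comp
    (isSimplyConnected_of_convex hs ⟨t0, ht0⟩) hso (g := u) hu.continuousOn
    (by rintro ⟨z, hz, hz'⟩; exact h0 z hz hz')
  have hg' : ∀ z ∈ s, Complex.exp (g z) = u z := fun z hz => hg hz
  refine ⟨fun z => g z - g t0 + l0, ?_, fun z hz => ?_, by ring⟩
  · exact ((differentiableOn_of_exp hso hgc hu hg').sub_const _).add_const _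
  · rw [Complex.exp_add, Complex.exp_sub, hg' z hz, hl0, hg' t0 ht0]
    exact div_mul_cancel₀ _ (h0 t0 ht0)

/-- Nonvanishing entire functions have entire logarithms. -/
theorem exists_entire_log {u : ℂ → ℂ} (hu : Differentiable ℂ u) (h0 : ∀ z, u z ≠ 0) :
    ∃ g : ℂ → ℂ, Differentiable ℂ g ∧ ∀ z, Complex.exp (g z) = u z := by
  obtain ⟨g, hgd, hg, -⟩ := exists_log_on_convex convex_univ isOpen_univ hu.differentiableOn
    (fun z _ => h0 z) (mem_univ 0) (l0 := Complex.log (u 0)) (Complex.exp_log (h0 0))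
  exact ⟨g, differentiableOn_univ.1 hgd, fun z => hg z (mem_univ z)⟩

/-- Little Picard theorem. -/
theorem little_picard {v : ℂ → ℂ} (hv : Differentiable ℂ v) (h0 : ∀ z, v z ≠ 0)
    (h1 : ∀ z, v z ≠ 1) (a b : ℂ) : v a = v b := by
  obtain ⟨g1, hg1c, hg1⟩ := exists_entire_log hv h0
  set m : ℂ → ℂ := fun p => g1 p / (2 * Real.pi * Complex.I) with hm
  have hexp : ∀ p, Complex.exp (2 * Real.pi * Complex.I * m p) = v p := by
    intro p
    rw [hm]
    simp only
    rw [mul_div_cancel₀ _ two_pi_I_ne, hg1 p]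
  have hne : ∀ p, ∀ j : ℤ, m p ≠ j := fun p j =>
    ne_int_of_exp_ne_one (by rw [hexp p]; exact h1 p) j
  have hmd : Differentiable ℂ m := hg1c.div_const _
  obtain ⟨g2, hg2d, hg2⟩ := exists_entire_log hmd (fun p => by simpa using hne p 0)
  obtain ⟨g3, hg3d, hg3⟩ := exists_entire_log (hmd.sub_const 1)
    (fun p => sub_ne_zero.2 (by simpa using hne p 1))
  have ha : ∀ p, Complex.exp (g2 p / 2) ^ 2 = m p := fun p => by rw [half_exp_sq, hg2 p]
  have hb : ∀ p, Complex.exp (g3 p / 2) ^ 2 = m p - 1 := fun p => by rw [half_exp_sq, hg3 p]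
  have hab : ∀ p, Complex.exp (g2 p / 2) - Complex.exp (g3 p / 2) ≠ 0 := by
    intro p h
    have h2 := ha p
    rw [sub_eq_zero.1 h, hb p] at h2
    have : (1 : ℂ) = 0 := by linear_combination -h2
    exact one_ne_zero this
  obtain ⟨G, hGd, hG⟩ := exists_entire_log
    (u := fun p => Complex.exp (g2 p / 2) - Complex.exp (g3 p / 2))
    (((hg2d.div_const _).cexp).sub ((hg3d.div_const _).cexp)) hab
  have hcosh : ∀ p, Complex.cosh (G p) ^ 2 = m p := fun p =>
    landau_algebra (ha p) (hb p) (hG p)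
  have hconst : ∀ a b, G a = G b := by
    refine entire_constant_of_net hGd fun z => ?_
    obtain ⟨w, hw, j, hj⟩ := exists_net z
    refine ⟨w, hw, ?_⟩
    rintro ⟨y, rfl⟩
    exact hne y j (by rw [← hcosh y]; exact hj)
  rw [← hexp a, ← hexp b, ← hcosh a, ← hcosh b, hconst a b]

end Pool.Agent.Helper93.LN
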