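import Mathlib
import Pool.Agent.Helper93.LN.HLog
import Pool.Agent.Helper2.LN.Defs2

/-!
# LN, analytic layer: scaling of the roots; the period of Landau functions
-/

set_option autoImplicit false

open Metric Set Filter Topology Polynomial Pool.Agent.Helper2.LN

namespace Pool.Agent.Helper93.LN

theorem coeff_pol_lt (m : ℕ) (w : Fin (m - 1) → ℂ) (i : ℕ) (hi : i < m) :
    (pol m w).coeff i = ∑ j : Fin (m - 1), if i = m - 2 - (j : ℕ) then w j else 0 := by
  unfold pol
  rw [coeff_add, coeff_X_pow, if_neg (by omega), zero_add, finsetSum_coeff]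
  refine Finset.sum_congr rfl fun j _ => ?_
  rw [coeff_C_mul, coeff_X_pow]
  split_ifs <;> simp

theorem pol_scale (m : ℕ) (a : ℂ) (w : Fin (m - 1) → ℂ) :
    pol m (scale a w) = (pol m w).scaleRoots a := by
  ext i
  rw [coeff_scaleRoots, natDegree_pol]
  rcases lt_trichotomy i m with h | h | h
  · rw [coeff_pol_lt m _ i h, coeff_pol_lt m _ i h, Finset.sum_mul]
    refine Finset.sum_congr rfl fun j _ => ?_
    split_ifs with hj
    · have h1 : m - i = (j : ℕ) + 2 := by have := j.2; omega
      rw [h1]
      simp only [scale]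
      ring
    · simp
  · subst h
    have h1 : (pol i (scale a w)).coeff i = 1 := by
      have := (monic_pol i (scale a w)).coeff_natDegree
      rwa [natDegree_pol] at this
    have h2 : (pol i w).coeff i = 1 := by
      have := (monic_pol i w).coeff_natDegree
      rwa [natDegree_pol] at this
    rw [h1, h2]; simp
  · rw [coeff_eq_zero_of_natDegree_lt (by rw [natDegree_pol]; exact h),
      coeff_eq_zero_of_natDegree_lt (by rw [natDegree_pol]; exact h)]
    simp

theorem derivative_scaleRoots {f : ℂ[X]} (a : ℂ) :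
    derivative (f.scaleRoots a) = (derivative f).scaleRoots a := by
  ext i
  rw [coeff_derivative, coeff_scaleRoots, coeff_scaleRoots, coeff_derivative,
    natDegree_derivative]
  have h1 : f.natDegree - (i + 1) = f.natDegree - 1 - i := by omega
  rw [h1]; ring

theorem discr_scale (m : ℕ) (a : ℂ) (w : Fin (m - 1) → ℂ) :
    (pol m (scale a w)).discr = a ^ (m * (m - 1)) * (pol m w).discr := by
  rcases Nat.eq_zero_or_pos m with rfl | hm
  · have h : scale a w = w := by
      funext j; exact absurd j.2 (by omega)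
    rw [h]; simp
  · rw [discr_pol_eq m hm, discr_pol_eq m hm, pol_scale,
      derivative_scaleRoots a]
    have h1 := resultant_scaleRoots (pol m w) (derivative (pol m w)) a
    have h2 : (derivative (pol m w)).natDegree = m - 1 := by
      rw [natDegree_derivative, natDegree_pol]
    rw [natDegree_scaleRoots, natDegree_scaleRoots, h2, natDegree_pol] at h1
    rw [h1]; ring

theorem scale_scale {m : ℕ} (a b : ℂ) (w : Fin (m - 1) → ℂ) : scale a (scale b w) = scale (a * b) w := by
  funext j; simp only [scale]; ring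

theorem scale_one {m : ℕ} (w : Fin (m - 1) → ℂ) : scale 1 w = w := by
  funext j; simp [scale]

theorem continuous_scale {m : ℕ} :
    Continuous fun p : ℂ × (Fin (m - 1) → ℂ) => (scale p.1 p.2 : Fin (m - 1) → ℂ) := by
  unfold scale
  fun_prop

theorem scale_mem_G0 {m : ℕ} {a : ℂ} (ha : a ≠ 0) {w : Fin (m - 1) → ℂ} (hw : w ∈ G0 m) :
    scale a w ∈ G0 m := by
  show (pol m (scale a w)).discr ≠ 0
  rw [discr_scale]
  exact mul_ne_zero (pow_ne_zero _ ha) hw

/-- Landau functions are invariant under scaling. -/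
theorem landau_scale {k : ℕ} {G : (Fin (k - 1) → ℂ) × ℂ → ℂ} (hG : IsLandau k G)
    {z : Fin (k - 1) → ℂ} {l : ℂ} (h : (z, l) ∈ Ghat k) (s : ℂ) :
    G (scale (Complex.exp s) z, l + per k * s) = G (z, l) := by
  set γ : ℂ → (Fin (k - 1) → ℂ) × ℂ := fun s => (scale (Complex.exp s) z, l + per k * s) with hγ
  have hγd : Differentiable ℂ γ := by
    have h1 : Differentiable ℂ fun s : ℂ => (scale (Complex.exp s) z : Fin (k - 1) → ℂ) := by
      rw [differentiable_pi]
      intro j
      simp only [scale]
      fun_prop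
    exact h1.prodMk (by fun_prop)
  have hmem : ∀ s, γ s ∈ Ghat k := by
    intro s
    show Complex.exp (l + per k * s) = (pol k (scale (Complex.exp s) z)).discr
    have h' : Complex.exp l = (pol k z).discr := h
    rw [discr_scale, Complex.exp_add, Complex.exp_nat_mul, h']
    unfold per
    ring
  have hd : Differentiable ℂ fun s => G (γ s) := by
    rw [← differentiableOn_univ]
    exact hG.hol univ γ isOpen_univ hγd.differentiableOn fun t _ => hmem t
  have hconst : ∀ a b, G (γ a) = G (γ b) := by
    refine entire_constant_of_net hd fun z => ?_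
    obtain ⟨w, hw, j, hj⟩ := exists_net z
    refine ⟨w, hw, ?_⟩
    rintro ⟨y, rfl⟩
    exact hG.omits _ (hmem y) j hj
  have := hconst s 0
  simp only [hγ, Complex.exp_zero, mul_zero, add_zero, scale_one] at this
  exact this

/-- Landau functions have the period `k (k - 1)` in `l / (2 π i)`. -/
theorem landau_period {k : ℕ} {G : (Fin (k - 1) → ℂ) × ℂ → ℂ} (hG : IsLandau k G)
    {z : Fin (k - 1) → ℂ} {l : ℂ} (h : (z, l) ∈ Ghat k) :
    G (z, l + per k * (2 * Real.pi * Complex.I)) = G (z, l) := by
  have := landau_scale hG h (2 * Real.pi * Complex.I)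
  rwa [Complex.exp_two_pi_mul_I, scale_one] at this

/-- `Ghat` is invariant under `l ↦ l + 2 π i j`. -/
theorem shift_mem_Ghat {k : ℕ} {z : Fin (k - 1) → ℂ} {l : ℂ} (h : (z, l) ∈ Ghat k) (j : ℤ) :
    (z, l + j * (2 * Real.pi * Complex.I)) ∈ Ghat k := by
  show Complex.exp (l + j * (2 * Real.pi * Complex.I)) = (pol k z).discr
  rw [Complex.exp_add, Complex.exp_int_mul_two_pi_mul_I, mul_one]
  exact h

theorem mem_G0_of_mem_Ghat {k : ℕ} {p : (Fin (k - 1) → ℂ) × ℂ} (h : p ∈ Ghat k) : p.1 ∈ G0 k := by
  have h' : Complex.exp p.2 = (pol k p.1).discr := h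
  show (pol k p.1).discr ≠ 0
  rw [← h']; exact Complex.exp_ne_zero _

theorem log_mem_Ghat {k : ℕ} {z : Fin (k - 1) → ℂ} (h : z ∈ G0 k) :
    (z, Complex.log (pol k z).discr) ∈ Ghat k :=
  Complex.exp_log h

/-- two points of `Ghat` over the same point differ by a multiple of `2 π i` -/
theorem exists_shift {k : ℕ} {z : Fin (k - 1) → ℂ} {l l' : ℂ} (h : (z, l) ∈ Ghat k)
    (h' : (z, l') ∈ Ghat k) : ∃ j : ℤ, l' = l + j * (2 * Real.pi * Complex.I) := by
  have h1 : Complex.exp l' = Complex.exp l := by
    have e : Complex.exp l = (pol k z).discr := h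
    have e' : Complex.exp l' = (pol k z).discr := h'
    rw [e, e']
  rw [Complex.exp_eq_exp_iff_exists_int] at h1
  exact h1

end Pool.Agent.Helper93.LN
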