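import Mathlib
import Pool.Agent.Helper93.LN.HScale

/-!
# LN, analytic layer: the fibre of `Ghat k → G0 k`, local branches of Landau functions
-/

set_option autoImplicit false

open Metric Set Filter Topology Polynomial Pool.Agent.Helper2.LN

namespace Pool.Agent.Helper93.LN

section shift

variable {M : Type*} [CommMonoid M]

theorem prod_shift_one {N : ℕ} {F : ℤ → M} (hF : ∀ j, F (j + N) = F j) (a : ℤ) :
    ∏ r ∈ Finset.range N, F (a + 1 + r) = ∏ r ∈ Finset.range N, F (a + r) := by
  cases N with
  | zero => simp
  | succ N =>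
    rw [Finset.prod_range_succ, Finset.prod_range_succ']
    have h1 : F (a + 1 + (N : ℕ)) = F (a + ((0 : ℕ) : ℤ)) := by
      calc F (a + 1 + (N : ℕ)) = F (a + ((N + 1 : ℕ) : ℤ)) := by
            congr 1; push_cast; ring
        _ = F a := hF a
        _ = F (a + ((0 : ℕ) : ℤ)) := by simp
    rw [h1]
    congr 1
    refine Finset.prod_congr rfl fun r _ => ?_
    congr 1
    push_cast; ring

theorem prod_shift {N : ℕ} {F : ℤ → M} (hF : ∀ j, F (j + N) = F j) (a : ℤ) :
    ∏ r ∈ Finset.range N, F (a + r) = ∏ r ∈ Finset.range N, F r := by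
  induction a using Int.induction_on with
  | zero => simp
  | succ i ih => rw [prod_shift_one hF, ih]
  | pred i ih =>
    rw [← ih, ← prod_shift_one hF]
    refine Finset.prod_congr rfl fun r _ => ?_
    congr 1
    ring

end shift

variable {k : ℕ} {G : (Fin (k - 1) → ℂ) × ℂ → ℂ}

/-- A function of the values of `G` on the fibre, multiplied over one period, does not depend on
the base point of the fibre. -/
theorem prod_fibre {M : Type*} [CommMonoid M] (hG : IsLandau k G) (φ : ℂ → M)
    {z : Fin (k - 1) → ℂ} {l l' : ℂ} (h : (z, l) ∈ Ghat k) (h' : (z, l') ∈ Ghat k) :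
    ∏ r ∈ Finset.range (per k), φ (G (z, l + 2 * Real.pi * Complex.I * r)) =
      ∏ r ∈ Finset.range (per k), φ (G (z, l' + 2 * Real.pi * Complex.I * r)) := by
  obtain ⟨j, hj⟩ := exists_shift h h'
  set F : ℤ → M := fun i => φ (G (z, l + i * (2 * Real.pi * Complex.I))) with hF
  have hper : ∀ i, F (i + per k) = F i := by
    intro i
    simp only [hF]
    have h1 := landau_period hG (shift_mem_Ghat h i)
    have h2 : l + ((i + (per k : ℕ) : ℤ) : ℂ) * (2 * Real.pi * Complex.I)
        = l + i * (2 * Real.pi * Complex.I) + per k * (2 * Real.pi * Complex.I) := by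
      push_cast; ring
    rw [h2, h1]
  have h1 : ∏ r ∈ Finset.range (per k), φ (G (z, l' + 2 * Real.pi * Complex.I * r))
      = ∏ r ∈ Finset.range (per k), F (j + r) := by
    refine Finset.prod_congr rfl fun r _ => ?_
    simp only [hF]
    rw [hj]
    congr 3
    push_cast; ring
  have h2 : ∏ r ∈ Finset.range (per k), φ (G (z, l + 2 * Real.pi * Complex.I * r))
      = ∏ r ∈ Finset.range (per k), F r := by
    refine Finset.prod_congr rfl fun r _ => ?_
    simp only [hF]
    congr 3
    push_cast; ring
  rw [h1, h2, prod_shift hper]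

theorem hprod_eq (hG : IsLandau k G) {z : Fin (k - 1) → ℂ} {l : ℂ} (h : (z, l) ∈ Ghat k) (y : ℂ) :
    hprod k G y z = ∏ r ∈ Finset.range (per k), (y - G (z, l + 2 * Real.pi * Complex.I * r)) := by
  have := prod_fibre hG (fun x => y - x) (log_mem_Ghat (mem_G0_of_mem_Ghat h)) h
  simpa only [hprod, brv] using this

theorem bigM_eq (hG : IsLandau k G) {z : Fin (k - 1) → ℂ} {l : ℂ} (h : (z, l) ∈ Ghat k) :
    bigM k G z = ∑ r ∈ Finset.range (per k), ‖G (z, l + 2 * Real.pi * Complex.I * r)‖ := by
  have := prod_fibre (M := Multiplicative ℝ) hG (fun x => Multiplicative.ofAdd ‖x‖)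
    (log_mem_Ghat (mem_G0_of_mem_Ghat h)) h
  rw [← ofAdd_sum, ← ofAdd_sum] at this
  have h2 := Multiplicative.ofAdd.injective this
  simpa only [bigM, brv] using h2

theorem bigM_nonneg (z : Fin (k - 1) → ℂ) : 0 ≤ bigM k G z :=
  Finset.sum_nonneg fun _ _ => norm_nonneg _

theorem norm_hprod_le (y : ℂ) (z : Fin (k - 1) → ℂ) :
    ‖hprod k G y z‖ ≤ (‖y‖ + bigM k G z) ^ per k := by
  unfold hprod
  rw [norm_prod]
  calc ∏ r ∈ Finset.range (per k), ‖y - brv k G z r‖
      ≤ ∏ _r ∈ Finset.range (per k), (‖y‖ + bigM k G z) := by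
        refine Finset.prod_le_prod (fun _ _ => norm_nonneg _) fun r hr => ?_
        refine (norm_sub_le _ _).trans (add_le_add_right ?_ _)
        exact Finset.single_le_sum (f := fun r => ‖brv k G z r‖) (fun _ _ => norm_nonneg _) hr
    _ = (‖y‖ + bigM k G z) ^ per k := by simp

/-- The value `G (z, l)` is a root of the product over the fibre. -/
theorem hprod_self (hk : 2 ≤ k) (hG : IsLandau k G) {z : Fin (k - 1) → ℂ} {l : ℂ}
    (h : (z, l) ∈ Ghat k) : hprod k G (G (z, l)) z = 0 := by
  rw [hprod_eq hG h]
  have hper : 0 < per k := by unfold per; exact Nat.mul_pos (by omega) (by omega)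
  refine Finset.prod_eq_zero (i := 0) (Finset.mem_range.2 hper) ?_
  simp

theorem differentiable_prod {ι E : Type*} [NormedAddCommGroup E] [NormedSpace ℂ E]
    (s : Finset ι) (f : ι → E → ℂ) (h : ∀ i ∈ s, Differentiable ℂ (f i)) :
    Differentiable ℂ fun x => ∏ i ∈ s, f i x := by
  classical
  induction s using Finset.induction_on with
  | empty => simp
  | insert a s ha ih =>
    simp only [Finset.prod_insert ha]
    exact (h a (Finset.mem_insert_self _ _)).mul
      (ih fun i hi => h i (Finset.mem_insert_of_mem hi))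

theorem differentiable_coeff_pol (m i : ℕ) :
    Differentiable ℂ fun w : Fin (m - 1) → ℂ => (pol m w).coeff i := by
  unfold pol
  simp only [Polynomial.coeff_add, Polynomial.finsetSum_coeff, Polynomial.coeff_C_mul]
  fun_prop

theorem differentiable_discr (m : ℕ) :
    Differentiable ℂ fun w : Fin (m - 1) → ℂ => (pol m w).discr := by
  rcases Nat.eq_zero_or_pos m with rfl | hm
  · have : (fun w : Fin (0 - 1) → ℂ => (pol 0 w).discr) = fun _ => 1 := by
      funext w
      have h1 : pol 0 w = 1 := by
        unfold pol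
        rw [pow_zero, add_eq_left]
        refine Finset.sum_eq_zero fun j _ => ?_
        exact absurd j.2 (by omega)
      rw [h1, ← C_1, discr_C]
    rw [this]
    exact differentiable_const _
  · simp only [discr_pol_eq m hm]
    refine (differentiable_const _).mul ?_
    unfold resultant
    simp only [Matrix.det_apply]
    refine Differentiable.fun_sum fun σ _ => ?_
    refine Differentiable.const_smul ?_ _
    refine differentiable_prod _ _ ?_
    intro i _
    generalize σ i = i'
    unfold sylvester
    simp only [Matrix.of_apply]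
    induction i using Fin.addCases with
    | left j =>
      simp only [Fin.addCases_left]
      split_ifs
      · simp only [coeff_derivative]
        exact (differentiable_coeff_pol m _).mul (differentiable_const _)
      · exact differentiable_const _
    | right j =>
      simp only [Fin.addCases_right]
      split_ifs
      · exact differentiable_coeff_pol m _
      · exact differentiable_const _

/-- holomorphic local branches of the logarithm of the discriminant along a curve -/
theorem exists_branch {γ : ℂ → (Fin (k - 1) → ℂ)} {s : Set ℂ} (hs : Convex ℝ s) (hso : IsOpen s)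
    (hγ : DifferentiableOn ℂ γ s) (hm : ∀ t ∈ s, γ t ∈ G0 k) {t0 l0 : ℂ} (ht0 : t0 ∈ s)
    (hl0 : (γ t0, l0) ∈ Ghat k) :
    ∃ L : ℂ → ℂ, DifferentiableOn ℂ L s ∧ (∀ t ∈ s, (γ t, L t) ∈ Ghat k) ∧ L t0 = l0 := by
  have hd : DifferentiableOn ℂ (fun t => (pol k (γ t)).discr) s := by
    have h1 : Differentiable ℂ fun w : Fin (k - 1) → ℂ => (pol k w).discr := differentiable_discr k
    exact h1.comp_differentiableOn hγ
  exact exists_log_on_convex hs hso hd (fun t ht => hm t ht) ht0 hl0

end Pool.Agent.Helper93.LN
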