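import Mathlib
import Pool.Agent.Helper93.LN.HBranch
import Pool.Agent.Helper2.LN.Landau
import Pool.Agent.Helper2.LN.LineLiouville

/-!
# LN, analytic layer: the product over the fibre is constant along complex lines
-/

set_option autoImplicit false

open Metric Set Filter Topology Polynomial Pool.Agent.Helper2.LN

namespace Pool.Agent.Helper93.LN

variable {k : ℕ} {G : (Fin (k - 1) → ℂ) × ℂ → ℂ}

/-- A Landau function along a branch is holomorphic. -/
theorem branch_hol (hG : IsLandau k G) {γ : ℂ → (Fin (k - 1) → ℂ)} {s : Set ℂ} (hso : IsOpen s)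
    (hγ : DifferentiableOn ℂ γ s) {L : ℂ → ℂ} (hL : DifferentiableOn ℂ L s)
    (hm : ∀ t ∈ s, (γ t, L t) ∈ Ghat k) (r : ℕ) :
    DifferentiableOn ℂ (fun t => G (γ t, L t + 2 * Real.pi * Complex.I * r)) s ∧
      ∀ t ∈ s, ∀ j : ℤ, Complex.cosh (G (γ t, L t + 2 * Real.pi * Complex.I * r)) ^ 2 ≠ j := by
  have hmem : ∀ t ∈ s, (γ t, L t + 2 * Real.pi * Complex.I * r) ∈ Ghat k := by
    intro t ht
    have := shift_mem_Ghat (hm t ht) r
    convert this using 2
    push_cast; ring
  exact ⟨hG.hol s (fun t => (γ t, L t + 2 * Real.pi * Complex.I * r)) hso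
    (hγ.prodMk (hL.add_const _)) hmem, fun t ht j => hG.omits _ (hmem t ht) j⟩

theorem hprod_differentiableOn (hG : IsLandau k G) {γ : ℂ → (Fin (k - 1) → ℂ)} {s : Set ℂ}
    (hso : IsOpen s) (hγ : DifferentiableOn ℂ γ s) (hm : ∀ t ∈ s, γ t ∈ G0 k) (y : ℂ) :
    DifferentiableOn ℂ (fun t => hprod k G y (γ t)) s := by
  intro t0 ht0
  obtain ⟨ε, hε, hball⟩ := Metric.isOpen_iff.1 hso t0 ht0
  obtain ⟨L, hL, hLm, -⟩ := exists_branch (convex_ball t0 ε) isOpen_ball (hγ.mono hball)
    (fun t ht => hm t (hball ht)) (mem_ball_self hε) (log_mem_Ghat (hm t0 ht0))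
  have h1 : ∀ t ∈ ball t0 ε, hprod k G y (γ t) =
      ∏ r ∈ Finset.range (per k), (y - G (γ t, L t + 2 * Real.pi * Complex.I * r)) :=
    fun t ht => hprod_eq hG (hLm t ht) y
  have h2 : DifferentiableAt ℂ (fun t => ∏ r ∈ Finset.range (per k),
      (y - G (γ t, L t + 2 * Real.pi * Complex.I * r))) t0 := by
    have h3 : ∀ n : ℕ, DifferentiableAt ℂ (fun t => ∏ r ∈ Finset.range n,
        (y - G (γ t, L t + 2 * Real.pi * Complex.I * r))) t0 := by
      intro n
      induction n with
      | zero => simp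
      | succ n ih =>
        simp only [Finset.prod_range_succ]
        refine ih.mul ((differentiableAt_const _).sub ?_)
        exact (branch_hol hG isOpen_ball (hγ.mono hball) hL hLm n).1.differentiableAt
          (isOpen_ball.mem_nhds (mem_ball_self hε))
    exact h3 _
  have h4 : (fun t => hprod k G y (γ t)) =ᶠ[𝓝 t0] fun t => ∏ r ∈ Finset.range (per k),
      (y - G (γ t, L t + 2 * Real.pi * Complex.I * r)) := by
    filter_upwards [ball_mem_nhds t0 hε] with t ht using h1 t ht
  exact (h2.congr_of_eventuallyEq h4).differentiableWithinAt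

/-- Oscillation of `bigM` along a holomorphic curve. -/
theorem exists_bigM_osc (k : ℕ) : ∃ C : ℝ, 0 ≤ C ∧ ∀ (G : (Fin (k - 1) → ℂ) × ℂ → ℂ), IsLandau k G →
    ∀ (γ : ℂ → (Fin (k - 1) → ℂ)) (t0 : ℂ) (R : ℝ), 0 < R → DifferentiableOn ℂ γ (ball t0 R) →
    (∀ t ∈ ball t0 R, γ t ∈ G0 k) → ∀ t ∈ closedBall t0 (R / 2),
    bigM k G (γ t) ≤ bigM k G (γ t0) + C := by
  obtain ⟨C, hC, hosc⟩ := landau_osc
  refine ⟨per k * C, by positivity, ?_⟩
  intro G hG γ t0 R hR hγ hm t ht
  have ht0 : t0 ∈ ball t0 R := mem_ball_self hR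
  have htb : t ∈ ball t0 R := closedBall_subset_ball (by linarith) ht
  obtain ⟨L, hL, hLm, -⟩ := exists_branch (convex_ball t0 R) isOpen_ball hγ hm ht0
    (log_mem_Ghat (hm t0 ht0))
  rw [bigM_eq hG (hLm t htb), bigM_eq hG (hLm t0 ht0)]
  have h1 : ∀ r ∈ Finset.range (per k), ‖G (γ t, L t + 2 * Real.pi * Complex.I * r)‖ ≤
      ‖G (γ t0, L t0 + 2 * Real.pi * Complex.I * r)‖ + C := by
    intro r _
    obtain ⟨hd, hn⟩ := branch_hol hG isOpen_ball hγ hL hLm r
    have h2 := hosc _ t0 R hR hd hn t ht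
    calc ‖G (γ t, L t + 2 * Real.pi * Complex.I * r)‖
        = ‖G (γ t0, L t0 + 2 * Real.pi * Complex.I * r) +
          (G (γ t, L t + 2 * Real.pi * Complex.I * r) -
            G (γ t0, L t0 + 2 * Real.pi * Complex.I * r))‖ := by congr 1; ring
      _ ≤ _ := (norm_add_le _ _).trans (add_le_add_right h2 _)
  refine (Finset.sum_le_sum h1).trans ?_
  rw [Finset.sum_add_distrib]
  simp

/-- The discriminant along a line is a polynomial. -/
theorem discr_line_poly (k : ℕ) (z z' : Fin (k - 1) → ℂ) :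
    ∃ p : ℂ[X], ∀ t : ℂ, p.eval t = (pol k (z + t • (z' - z))).discr := by
  rcases Nat.eq_zero_or_pos k with rfl | hk
  · refine ⟨C (pol 0 z).discr, fun t => ?_⟩
    have : z + t • (z' - z) = z := by funext j; exact absurd j.2 (by omega)
    rw [this, eval_C]
  · set f : ℂ[X][X] := X ^ k + ∑ j : Fin (k - 1), C (C (z j) + X * C (z' j - z j)) *
      X ^ (k - 2 - (j : ℕ)) with hf
    refine ⟨(-1) ^ (k * (k - 1) / 2) * resultant f (derivative f) k (k - 1), fun t => ?_⟩
    rw [discr_pol_eq k hk]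
    have hmap : f.map (evalRingHom t) = pol k (z + t • (z' - z)) := by
      rw [hf, pol]
      simp only [Polynomial.map_add, Polynomial.map_pow, map_X, Polynomial.map_sum,
        Polynomial.map_mul, map_C]
      congr 1
      refine Finset.sum_congr rfl fun j _ => ?_
      congr 2
      simp
    have h1 := resultant_map_map f (derivative f) k (k - 1) (evalRingHom t)
    rw [hmap, ← derivative_map, hmap] at h1
    rw [h1]
    simp

theorem hprod_eq_of_mem (hG : IsLandau k G) {z z' : Fin (k - 1) → ℂ} (hz : z ∈ G0 k)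
    (hz' : z' ∈ G0 k) (y : ℂ) : hprod k G y z = hprod k G y z' := by
  obtain ⟨p, hp⟩ := discr_line_poly k z z'
  obtain ⟨C, hC, hosc⟩ := exists_bigM_osc k
  set γ : ℂ → (Fin (k - 1) → ℂ) := fun t => z + t • (z' - z) with hγ
  have hγd : Differentiable ℂ γ := by
    rw [hγ]; fun_prop
  have h0 : γ 0 = z := by simp [hγ]
  have h1 : γ 1 = z' := by simp [hγ]
  have hp0 : p ≠ 0 := by
    rintro rfl
    have := hp 0
    rw [eval_zero] at this
    have hz0 : (pol k (γ 0)).discr ≠ 0 := by rw [h0]; exact hz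
    exact hz0 this.symm
  set Z : Set ℂ := {t | p.eval t = 0} with hZ
  have hZf : Z.Finite := by
    have : Z ⊆ (p.roots.toFinset : Set ℂ) := by
      intro t ht
      rw [Finset.mem_coe, Multiset.mem_toFinset, mem_roots hp0]
      exact ht
    exact (Finset.finite_toSet _).subset this
  have hmem : ∀ t ∉ Z, γ t ∈ G0 k := by
    intro t ht
    show (pol k (γ t)).discr ≠ 0
    rw [← hp t]; exact ht
  have hopen : IsOpen Zᶜ := hZf.isClosed.isOpen_compl
  have hfin := line_liouville Z hZf (fun t => bigM k G (γ t)) (fun t => bigM_nonneg _) C hC ?_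
    (fun t => hprod k G y (γ t)) (hprod_differentiableOn hG hopen hγd.differentiableOn hmem y)
    ‖y‖ (norm_nonneg _) (per k) (fun t _ => norm_hprod_le y _) 0 ?_ 1 ?_
  · simp only [h0, h1] at hfin
    exact hfin
  · intro t₁ ht₁ t ht
    rcases eq_or_ne t t₁ with rfl | hne
    · linarith
    · have hR : 0 < 2 * ‖t - t₁‖ := by
        have := norm_pos_iff.2 (sub_ne_zero.2 hne)
        positivity
      refine hosc G hG γ t₁ (2 * ‖t - t₁‖) hR hγd.differentiableOn ?_ t ?_
      · intro x hx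
        refine hmem x fun hxZ => ?_
        have h2 := ht x hxZ
        rw [mem_ball, dist_eq_norm] at hx
        exact absurd hx (not_lt.2 h2)
      · rw [mem_closedBall, dist_eq_norm]
        linarith
  · intro h
    have : p.eval 0 ≠ 0 := by
      rw [hp 0]
      have hz0 : (pol k (γ 0)).discr ≠ 0 := by rw [h0]; exact hz
      exact hz0
    exact this h
  · intro h
    have : p.eval 1 ≠ 0 := by
      rw [hp 1]
      have hz0 : (pol k (γ 1)).discr ≠ 0 := by rw [h1]; exact hz'
      exact hz0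
    exact this h

end Pool.Agent.Helper93.LN
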