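import Mathlib
import Pool.Agent.Helper93.LN.HLine

/-!
# LN, analytic layer: functions on `Ghat k` omitting `0` and `1` are constant
-/

set_option autoImplicit false

open Metric Set Filter Topology Polynomial Pool.Agent.Helper2.LN

namespace Pool.Agent.Helper93.LN

theorem eq_of_finite_range {X : Type*} [TopologicalSpace X] {S : Set X} (hS : IsPreconnected S)
    {u : X → ℂ} (hu : ContinuousOn u S) {V : Set ℂ} (hV : V.Finite) (hm : ∀ p ∈ S, u p ∈ V)
    {p p' : X} (hp : p ∈ S) (hp' : p' ∈ S) : u p = u p' := by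
  by_contra hne
  have h1 : IsPreconnected (u '' S) := hS.image u hu
  have h2 : (u '' S).Nontrivial := ⟨u p, mem_image_of_mem u hp, u p', mem_image_of_mem u hp', hne⟩
  have h3 := h1.infinite_of_nontrivial h2
  exact h3 (hV.subset (by rintro _ ⟨x, hx, rfl⟩; exact hm x hx))

theorem landau_const {k : ℕ} (hk : 2 ≤ k) (hconn : IsPreconnected (Ghat k))
    {G : (Fin (k - 1) → ℂ) × ℂ → ℂ} (hG : IsLandau k G) :
    ∀ p ∈ Ghat k, ∀ p' ∈ Ghat k, G p = G p' := by
  intro p hp p' hp'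
  refine eq_of_finite_range hconn hG.cont (V := brv k G p.1 '' (Finset.range (per k) : Set ℕ))
    ((Finset.finite_toSet _).image _) ?_ hp hp'
  rintro ⟨z, l⟩ hq
  have h1 : hprod k G (G (z, l)) z = 0 := hprod_self hk hG hq
  rw [hprod_eq_of_mem hG (mem_G0_of_mem_Ghat hq) (mem_G0_of_mem_Ghat hp)] at h1
  unfold hprod at h1
  rw [Finset.prod_eq_zero_iff] at h1
  obtain ⟨r, hr, h2⟩ := h1
  exact ⟨r, by simpa using hr, (sub_eq_zero.1 h2).symm⟩

/-- Holomorphic functions on `Ghat k` omitting `0` and `1` are constant. -/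
theorem omit_const {k : ℕ} (hk : 2 ≤ k) (hconn : IsPreconnected (Ghat k)) (hL : LogProp k)
    {v : (Fin (k - 1) → ℂ) × ℂ → ℂ} (hc : ContinuousOn v (Ghat k)) (hh : HolG k v)
    (h0 : ∀ p ∈ Ghat k, v p ≠ 0) (h1 : ∀ p ∈ Ghat k, v p ≠ 1) :
    ∀ p ∈ Ghat k, ∀ p' ∈ Ghat k, v p = v p' := by
  obtain ⟨G, hG, hv⟩ := exists_landau hL hc hh h0 h1
  intro p hp p' hp'
  rw [← hv p hp, ← hv p' hp', landau_const hk hconn hG p hp p' hp']

end Pool.Agent.Helper93.LN
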