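import Mathlib
import Pool.Agent.Helper93.LN.HConst

/-!
# LN, analytic layer: root functions on `Ghat k` are proportional
-/

set_option autoImplicit false

open Metric Set Filter Topology Polynomial Pool.Agent.Helper2.LN

namespace Pool.Agent.Helper93.LN

/-- Continuous root functions on `Ghat k` for the family `F : G_k^0 → G_n^0`. -/
structure RootSec (k n : ℕ) (F : (Fin (k - 1) → ℂ) → (Fin (n - 1) → ℂ)) where
  /-- the roots -/
  X : Fin n → (Fin (k - 1) → ℂ) × ℂ → ℂ
  cont : ∀ i, ContinuousOn (X i) (Ghat k)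
  inj : ∀ p ∈ Ghat k, Function.Injective fun i => X i p
  prod : ∀ p ∈ Ghat k, pol n (F p.1) = ∏ i, (Polynomial.X - C (X i p))
  /-- the monodromy -/
  tau : Equiv.Perm (Fin n)
  shift : ∀ i, ∀ p ∈ Ghat k, X i (p.1, p.2 + 2 * Real.pi * Complex.I) = X (tau i) p

theorem differentiableAt_mul_of_zero {φ c : ℂ → ℂ} {t0 : ℂ} (hφ : DifferentiableAt ℂ φ t0)
    (h0 : φ t0 = 0) (hc : ContinuousAt c t0) : DifferentiableAt ℂ (fun t => φ t * c t) t0 := by
  have h : HasDerivAt (fun t => φ t * c t) (deriv φ t0 * c t0) t0 := by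
    rw [hasDerivAt_iff_tendsto_slope]
    have h1 := hasDerivAt_iff_tendsto_slope.1 hφ.hasDerivAt
    have h2 : Tendsto c (𝓝[≠] t0) (𝓝 (c t0)) := hc.tendsto.mono_left nhdsWithin_le_nhds
    have h3 := h1.mul h2
    refine h3.congr fun t => ?_
    simp only [slope_def_field, h0, zero_mul, sub_zero]
    ring
  exact h.differentiableAt

/-- One factor of a holomorphic product with continuous factors, the others being nonzero, is
holomorphic (roots of a holomorphic family of polynomials). -/
theorem root_differentiableAt {n : ℕ} {a : ℂ → (Fin (n - 1) → ℂ)} {x : Fin n → ℂ → ℂ} {t0 : ℂ}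
    (ha : DifferentiableAt ℂ a t0) (hx : ∀ i, ContinuousAt (x i) t0)
    (hinj : Function.Injective fun i => x i t0)
    (hp : ∀ᶠ t in 𝓝 t0, pol n (a t) = ∏ i, (Polynomial.X - C (x i t))) (i : Fin n) :
    DifferentiableAt ℂ (x i) t0 := by
  classical
  set x0 : ℂ := x i t0 with hx0
  set φ : ℂ → ℂ := fun t => (pol n (a t)).eval x0 with hφ
  have hφd : DifferentiableAt ℂ φ t0 := by
    have h1 : ∀ w : Fin (n - 1) → ℂ, (pol n w).eval x0 =
        x0 ^ n + ∑ j : Fin (n - 1), w j * x0 ^ (n - 2 - (j : ℕ)) := by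
      intro w
      unfold pol
      simp [eval_finsetSum]
    have h2 : φ = fun t => x0 ^ n + ∑ j : Fin (n - 1), a t j * x0 ^ (n - 2 - (j : ℕ)) := by
      funext t; exact h1 (a t)
    rw [h2]
    refine (differentiableAt_const _).add ?_
    refine DifferentiableAt.fun_sum fun j _ => ?_
    exact ((differentiableAt_pi.1 ha) j).mul_const _
  have hp0 := hp.self_of_nhds
  have hφ0 : φ t0 = 0 := by
    simp only [hφ]
    rw [hp0, eval_prod]
    exact Finset.prod_eq_zero (Finset.mem_univ i) (by simp [hx0])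
  set D : ℂ → ℂ := fun t => ∏ j ∈ Finset.univ.erase i, (x0 - x j t) with hD
  have hDc : ContinuousAt D t0 := by
    simp only [hD]
    exact tendsto_finsetProd _ fun j _ => (continuousAt_const.sub (hx j))
  have hD0 : D t0 ≠ 0 := by
    simp only [hD]
    rw [Finset.prod_ne_zero_iff]
    intro j hj h
    have h1 : x i t0 = x j t0 := sub_eq_zero.1 h
    exact (Finset.ne_of_mem_erase hj) (hinj h1).symm
  have hev : ∀ᶠ t in 𝓝 t0, x i t = x0 - φ t * (D t)⁻¹ := by
    filter_upwards [hp, hDc.eventually_ne hD0] with t ht hDt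
    have h1 : φ t = (x0 - x i t) * D t := by
      simp only [hφ, hD]
      rw [ht, eval_prod]
      simp only [eval_sub, eval_X, eval_C]
      exact (Finset.mul_prod_erase _ _ (Finset.mem_univ i)).symm
    rw [h1, mul_assoc, mul_inv_cancel₀ hDt]
    ring
  have hd : DifferentiableAt ℂ (fun t => x0 - φ t * (D t)⁻¹) t0 :=
    (differentiableAt_const _).sub (differentiableAt_mul_of_zero hφd hφ0 (hDc.inv₀ hD0))
  exact hd.congr_of_eventuallyEq hev

theorem isOpen_G0 (m : ℕ) : IsOpen (G0 m) := by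
  have : G0 m = (fun w : Fin (m - 1) → ℂ => (pol m w).discr) ⁻¹' {0}ᶜ := rfl
  rw [this]
  exact isOpen_compl_singleton.preimage (continuous_discr m)

theorem RootSec.hol {k n : ℕ} {F : (Fin (k - 1) → ℂ) → (Fin (n - 1) → ℂ)} (S : RootSec k n F)
    (hF : DifferentiableOn ℂ F (G0 k)) (i : Fin n) : HolG k (S.X i) := by
  intro Ω γ hΩ hγ hm t0 ht0
  have hγ1 : DifferentiableAt ℂ (fun t => (γ t).1) t0 :=
    (hγ.differentiableAt (hΩ.mem_nhds ht0)).fst
  have hF1 : DifferentiableAt ℂ F (γ t0).1 :=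
    hF.differentiableAt ((isOpen_G0 k).mem_nhds (mem_G0_of_mem_Ghat (hm t0 ht0)))
  have ha : DifferentiableAt ℂ (fun t => F (γ t).1) t0 := hF1.comp t0 hγ1
  refine (root_differentiableAt (a := fun t => F (γ t).1) (x := fun i t => S.X i (γ t)) ha ?_
    (S.inj _ (hm t0 ht0)) ?_ i).differentiableWithinAt
  · intro i
    exact ((S.cont i).comp hγ.continuousOn hm).continuousAt (hΩ.mem_nhds ht0)
  · filter_upwards [hΩ.mem_nhds ht0] with t ht using S.prod _ (hm t ht)

theorem coeff_pred_pol (n : ℕ) (hn : 2 ≤ n) (w : Fin (n - 1) → ℂ) : (pol n w).coeff (n - 1) = 0 := by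
  rw [coeff_pol_lt n w _ (by omega)]
  refine Finset.sum_eq_zero fun j _ => ?_
  rw [if_neg]
  have := j.2
  omega

theorem sum_roots_zero {n : ℕ} (hn : 2 ≤ n) {w : Fin (n - 1) → ℂ} {x : Fin n → ℂ}
    (h : pol n w = ∏ i, (Polynomial.X - C (x i))) : ∑ i, x i = 0 := by
  have h1 : (pol n w).nextCoeff = 0 := by
    rw [nextCoeff_of_natDegree_pos (by rw [natDegree_pol]; omega), natDegree_pol]
    exact coeff_pred_pol n hn w
  rw [h, prod_X_sub_C_nextCoeff] at h1
  exact neg_eq_zero.1 h1

/-- The root functions are proportional to a fixed root set. -/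
theorem exists_proportional {k n : ℕ} (hk : 2 ≤ k) (hn : 3 ≤ n) (hconn : IsPreconnected (Ghat k))
    (hL : LogProp k) {F : (Fin (k - 1) → ℂ) → (Fin (n - 1) → ℂ)}
    (hF : DifferentiableOn ℂ F (G0 k)) (S : RootSec k n F) (hne : (Ghat k).Nonempty) :
    ∃ (c : Fin n → ℂ) (y : (Fin (k - 1) → ℂ) × ℂ → ℂ), Function.Injective c ∧
      ContinuousOn y (Ghat k) ∧ (∀ p ∈ Ghat k, y p ≠ 0) ∧
      ∀ i, ∀ p ∈ Ghat k, S.X i p = y p * c i := by
  classical
  set i0 : Fin n := ⟨0, by omega⟩ with hi0
  set i1 : Fin n := ⟨1, by omega⟩ with hi1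
  have h01 : i0 ≠ i1 := by rw [hi0, hi1]; intro h; simp at h
  set y : (Fin (k - 1) → ℂ) × ℂ → ℂ := fun p => S.X i1 p - S.X i0 p with hy
  have hyc : ContinuousOn y (Ghat k) := (S.cont i1).sub (S.cont i0)
  have hyh : HolG k y := fun Ω γ hΩ hγ hm =>
    (S.hol hF i1 Ω γ hΩ hγ hm).sub (S.hol hF i0 Ω γ hΩ hγ hm)
  have hy0 : ∀ p ∈ Ghat k, y p ≠ 0 := by
    intro p hp h
    exact h01 ((S.inj p hp (sub_eq_zero.1 h)).symm)
  obtain ⟨p0, hp0⟩ := hne
  -- constants
  set c' : Fin n → ℂ := fun i => (S.X i p0 - S.X i0 p0) / y p0 with hc'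
  have hconst : ∀ i, ∀ p ∈ Ghat k, S.X i p - S.X i0 p = y p * c' i := by
    intro i p hp
    by_cases hi : i = i0
    · subst hi
      simp [hc']
    by_cases hi' : i = i1
    · subst hi'
      have : c' i1 = 1 := by
        simp only [hc', hy]
        exact div_self (hy0 p0 hp0)
      rw [this, mul_one]
    have h1 := omit_const hk hconn hL (v := fun p => (S.X i p - S.X i0 p) / y p)
      (((S.cont i).sub (S.cont i0)).div hyc hy0)
      (fun Ω γ hΩ hγ hm => ((S.hol hF i Ω γ hΩ hγ hm).sub (S.hol hF i0 Ω γ hΩ hγ hm)).div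
        (hyh Ω γ hΩ hγ hm) (fun t ht => hy0 _ (hm t ht)))
      (fun p hp h => by
        rcases div_eq_zero_iff.1 h with h | h
        · exact hi (S.inj p hp (sub_eq_zero.1 h))
        · exact hy0 p hp h)
      (fun p hp h => by
        rw [div_eq_one_iff_eq (hy0 p hp)] at h
        have h2 : S.X i p = S.X i1 p := by
          have := h
          simp only [hy] at this
          linear_combination this
        exact hi' (S.inj p hp h2)) p hp p0 hp0
    rw [hc']
    simp only
    rw [← h1, mul_div_cancel₀ _ (hy0 p hp)]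
  have hn0 : (n : ℂ) ≠ 0 := by
    have : n ≠ 0 := by omega
    exact_mod_cast this
  refine ⟨fun i => c' i - (∑ j, c' j) / n, y, ?_, hyc, hy0, ?_⟩
  · intro i j hij
    have h1 : c' i = c' j := by
      simp only at hij
      linear_combination hij
    have h2 : S.X i p0 = S.X j p0 := by
      have hi := hconst i p0 hp0
      have hj := hconst j p0 hp0
      rw [h1] at hi
      linear_combination hi - hj
    exact S.inj p0 hp0 h2
  · intro i p hp
    have h1 := sum_roots_zero (by omega : 2 ≤ n) (S.prod p hp)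
    have h2 : ∑ j, S.X j p = n * S.X i0 p + y p * ∑ j, c' j := by
      have : ∀ j, S.X j p = S.X i0 p + y p * c' j := fun j => by
        have := hconst j p hp
        linear_combination this
      rw [Finset.sum_congr rfl fun j _ => this j, Finset.sum_add_distrib, ← Finset.mul_sum]
      simp
    rw [h1] at h2
    have h3 := hconst i p hp
    have h4 : S.X i0 p = - (y p * ∑ j, c' j) / n := by
      rw [eq_div_iff hn0]
      linear_combination -h2
    have h5 : S.X i p = S.X i0 p + y p * c' i := by linear_combination h3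
    rw [h5, h4]
    ring

end Pool.Agent.Helper93.LN
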