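import Mathlib
import Pool.Agent.Helper93.LN.FRoot

/-!
# LN, analytic layer: from root functions on `Ghat k` to a splitting homotopy
-/

set_option autoImplicit false

open Metric Set Filter Topology Polynomial Pool.Agent.Helper2.LN

namespace Pool.Agent.Helper93.LN

theorem pol_injective {n : ℕ} {w w' : Fin (n - 1) → ℂ} (h : pol n w = pol n w') : w = w' := by
  funext j
  have hj := j.2
  have hs : ∀ v : Fin (n - 1) → ℂ, (pol n v).coeff (n - 2 - (j : ℕ)) = v j := by
    intro v
    rw [coeff_pol_lt n v _ (by omega), Finset.sum_eq_single j]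
    · simp
    · intro i _ hij
      rw [if_neg]
      intro hc
      apply hij
      have hi := i.2
      exact Fin.ext (by omega)
    · intro hc; exact absurd (Finset.mem_univ _) hc
  rw [← hs w, ← hs w', h]

theorem pol_scale_prod {n : ℕ} {w : Fin (n - 1) → ℂ} {c : Fin n → ℂ}
    (h : pol n w = ∏ i, (Polynomial.X - C (c i))) {y : ℂ} (hy : y ≠ 0) :
    pol n (scale y w) = ∏ i, (Polynomial.X - C (y * c i)) := by
  rw [pol_scale]
  refine Polynomial.funext fun x => ?_
  have hx : x = y * (x / y) := by field_simp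
  rw [hx, scaleRoots_eval_mul, natDegree_pol, h, eval_prod, eval_prod]
  simp only [eval_sub, eval_X, eval_C]
  have : ∀ i : Fin n, y * (x / y) - y * c i = y * (x / y - c i) := fun i => by ring
  simp only [this]
  rw [Finset.prod_mul_distrib]
  simp

/-- functions invariant under the deck transformation descend continuously -/
theorem descend {X Z : Type*} [TopologicalSpace X] [TopologicalSpace Z] {d : X → ℂ} {A : Set X}
    (hd : ContinuousOn d A) (hA : ∀ x ∈ A, d x ≠ 0) {u : X × ℂ → Z}
    (hu : ContinuousOn u {p | p.1 ∈ A ∧ Complex.exp p.2 = d p.1})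
    (hs : ∀ x ∈ A, ∀ l, Complex.exp l = d x → u (x, l + 2 * Real.pi * Complex.I) = u (x, l)) :
    ContinuousOn (fun x => u (x, Complex.log (d x))) A ∧
      ∀ x ∈ A, ∀ l, Complex.exp l = d x → u (x, l) = u (x, Complex.log (d x)) := by
  have hexp1 : ∀ l : ℂ, Complex.exp (l + 2 * Real.pi * Complex.I) = Complex.exp l := fun l => by
    rw [Complex.exp_add, Complex.exp_two_pi_mul_I, mul_one]
  have hexpj : ∀ (l : ℂ) (j : ℤ), Complex.exp (l + j * (2 * Real.pi * Complex.I)) = Complex.exp l :=
    fun l j => by rw [Complex.exp_add, Complex.exp_int_mul_two_pi_mul_I, mul_one]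
  have hint : ∀ x ∈ A, ∀ l, Complex.exp l = d x → ∀ j : ℤ,
      u (x, l + j * (2 * Real.pi * Complex.I)) = u (x, l) := by
    intro x hx l hl j
    induction j using Int.induction_on with
    | zero => simp
    | succ i ih =>
      have h1 := hs x hx (l + (i : ℤ) * (2 * Real.pi * Complex.I)) (by rw [hexpj, hl])
      rw [ih] at h1
      rw [← h1]
      congr 2
      push_cast; ring
    | pred i ih =>
      have h1 := hs x hx (l + ((-(i : ℤ) - 1 : ℤ) : ℂ) * (2 * Real.pi * Complex.I)) (by rw [hexpj, hl])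
      rw [← h1, ← ih]
      congr 2
      push_cast; ring
  have hsame : ∀ x ∈ A, ∀ l, Complex.exp l = d x → u (x, l) = u (x, Complex.log (d x)) := by
    intro x hx l hl
    have h1 : Complex.exp l = Complex.exp (Complex.log (d x)) := by rw [Complex.exp_log (hA x hx), hl]
    obtain ⟨j, hj⟩ := Complex.exp_eq_exp_iff_exists_int.1 h1
    rw [hj]
    exact hint x hx _ (Complex.exp_log (hA x hx)) j
  refine ⟨?_, hsame⟩
  intro x0 hx0
  have h0 := hA x0 hx0
  set l : X → ℂ := fun x => Complex.log (d x0) + Complex.log (d x / d x0) with hl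
  have hlc : ContinuousWithinAt l A x0 := by
    refine continuousWithinAt_const.add ?_
    have h1 : ContinuousWithinAt (fun x => d x / d x0) A x0 := (hd x0 hx0).div_const _
    refine h1.clog ?_
    rw [div_self h0]
    exact Complex.one_mem_slitPlane
  have hlexp : ∀ x ∈ A, Complex.exp (l x) = d x := by
    intro x hx
    have h1 : d x / d x0 ≠ 0 := div_ne_zero (hA x hx) h0
    simp only [hl]
    rw [Complex.exp_add, Complex.exp_log h0, Complex.exp_log h1]
    field_simp
  have hmem : ∀ x ∈ A, (x, l x) ∈ {p : X × ℂ | p.1 ∈ A ∧ Complex.exp p.2 = d p.1} :=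
    fun x hx => ⟨hx, hlexp x hx⟩
  have h2 : ContinuousWithinAt (fun x => u (x, l x)) A x0 := by
    have h3 : ContinuousWithinAt (fun x => (x, l x)) A x0 := continuousWithinAt_id.prodMk hlc
    exact ContinuousWithinAt.comp (g := u) (f := fun x => (x, l x)) (hu _ (hmem x0 hx0)) h3 hmem
  exact h2.congr (fun x hx => (hsame x hx _ (hlexp x hx)).symm) (hsame x0 hx0 _ (hlexp x0 hx0)).symm

/-- A continuous function with values in a translate of `2 π i ℤ` is constant. -/
theorem const_of_exp_const {X : Type*} [TopologicalSpace X] {S : Set X} (hS : IsPreconnected S)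
    {u : X → ℂ} (hu : ContinuousOn u S) {ξ : ℂ} (h : ∀ p ∈ S, Complex.exp (u p) = ξ) {p p' : X}
    (hp : p ∈ S) (hp' : p' ∈ S) : u p = u p' := by
  have : DiscreteTopology (AddSubgroup.zmultiples (2 * Real.pi * Complex.I : ℂ)) :=
    NormedSpace.discreteTopology_zmultiples _
  have hmaps : MapsTo (fun x => u x - u p) S
      ((AddSubgroup.zmultiples (2 * Real.pi * Complex.I : ℂ) : AddSubgroup ℂ) : Set ℂ) := by
    intro x hx
    have h1 : Complex.exp (u x) = Complex.exp (u p) := by rw [h x hx, h p hp]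
    obtain ⟨j, hj⟩ := Complex.exp_eq_exp_iff_exists_int.1 h1
    show u x - u p ∈ AddSubgroup.zmultiples (2 * Real.pi * Complex.I : ℂ)
    rw [AddSubgroup.mem_zmultiples_iff]
    exact ⟨j, by rw [hj, zsmul_eq_mul]; ring⟩
  have h1 := hS.constant_of_mapsTo
    (T := ((AddSubgroup.zmultiples (2 * Real.pi * Complex.I : ℂ) : AddSubgroup ℂ) : Set ℂ))
    ⟨this⟩ (f := fun x => u x - u p) (hu.sub continuousOn_const) hmaps hp hp'
  linear_combination h1

theorem Ghat_eq (k : ℕ) : Ghat k = {p : (Fin (k - 1) → ℂ) × ℂ | p.1 ∈ G0 k ∧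
    Complex.exp p.2 = (pol k p.1).discr} := by
  ext p
  exact ⟨fun h => ⟨mem_G0_of_mem_Ghat h, h⟩, fun h => h.2⟩

/-- The splitting homotopy. -/
theorem splittable_of_factor {k n : ℕ} (f : C(G0 k, G0 n)) (h : C({w : ℂ // w ≠ 0}, G0 n))
    (κ : G0 k → ℂ) (hκc : Continuous κ)
    (hf : ∀ z : G0 k, (f z : Fin (n - 1) → ℂ) =
      scale (Complex.exp (κ z)) (h (dMap k z) : Fin (n - 1) → ℂ)) : Splittable f := by
  have hmem : ∀ p : unitInterval × G0 k, (scale (Complex.exp ((1 - ((p.1 : ℝ) : ℂ)) * κ p.2))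
      (h (dMap k p.2) : Fin (n - 1) → ℂ) : Fin (n - 1) → ℂ) ∈ G0 n :=
    fun p => scale_mem_G0 (Complex.exp_ne_zero _) (h (dMap k p.2)).2
  have hc1 : Continuous fun p : unitInterval × G0 k =>
      Complex.exp ((1 - ((p.1 : ℝ) : ℂ)) * κ p.2) := by
    have h1 : Continuous fun p : unitInterval × G0 k => ((p.1 : ℝ) : ℂ) :=
      Complex.continuous_ofReal.comp (continuous_subtype_val.comp continuous_fst)
    exact Complex.continuous_exp.comp ((continuous_const.sub h1).mul (hκc.comp continuous_snd))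
  have hc2 : Continuous fun p : unitInterval × G0 k => (h (dMap k p.2) : Fin (n - 1) → ℂ) :=
    continuous_subtype_val.comp (h.continuous.comp ((dMap k).continuous.comp continuous_snd))
  have hc : Continuous fun p : unitInterval × G0 k =>
      (scale (Complex.exp ((1 - ((p.1 : ℝ) : ℂ)) * κ p.2))
        (h (dMap k p.2) : Fin (n - 1) → ℂ) : Fin (n - 1) → ℂ) :=
    (continuous_scale (m := n)).comp (hc1.prodMk hc2)
  refine ⟨h, ⟨⟨⟨fun p => ⟨_, hmem p⟩, hc.subtype_mk hmem⟩, ?_, ?_⟩⟩⟩
  · intro z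
    apply Subtype.ext
    rw [hf z]
    simp
  · intro z
    apply Subtype.ext
    simp [scale_one]

/-- From the three properties of `Ghat k` to the theorem. -/
theorem splittable_of_rootSec {k n : ℕ} (hk : 2 ≤ k) (hn : 3 ≤ n) (hne : (Ghat k).Nonempty)
    (hconn : IsPreconnected (Ghat k)) (hL : LogProp k) (f : C(G0 k, G0 n))
    {F : (Fin (k - 1) → ℂ) → (Fin (n - 1) → ℂ)} (hF : DifferentiableOn ℂ F (G0 k))
    (hfF : ∀ z : G0 k, (f z : Fin (n - 1) → ℂ) = F z) (S : RootSec k n F) : Splittable f := by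
  obtain ⟨c, y, hc, hyc, hy0, hX⟩ := exists_proportional hk hn hconn hL hF S hne
  obtain ⟨lam, hlamc, hlam⟩ := hL y hyc hy0
  obtain ⟨p0, hp0⟩ := hne
  set T : (Fin (k - 1) → ℂ) × ℂ → (Fin (k - 1) → ℂ) × ℂ :=
    fun p => (p.1, p.2 + 2 * Real.pi * Complex.I) with hT
  have hTm : ∀ p ∈ Ghat k, T p ∈ Ghat k := by
    rintro ⟨z, l⟩ hp
    have := shift_mem_Ghat hp 1
    simpa [hT] using this
  have hTc : Continuous T := by rw [hT]; fun_prop
  -- the fixed root set
  set wc : Fin (n - 1) → ℂ := scale (y p0)⁻¹ (F p0.1) with hwc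
  have hwcp : pol n wc = ∏ i, (Polynomial.X - C (c i)) := by
    rw [hwc, pol_scale_prod (S.prod p0 hp0) (inv_ne_zero (hy0 p0 hp0))]
    refine Finset.prod_congr rfl fun i _ => ?_
    rw [hX i p0 hp0, inv_mul_cancel_left₀ (hy0 p0 hp0)]
  have hFy : ∀ p ∈ Ghat k, F p.1 = scale (y p) wc := by
    intro p hp
    apply pol_injective
    rw [S.prod p hp, pol_scale_prod hwcp (hy0 p hp)]
    refine Finset.prod_congr rfl fun i _ => ?_
    rw [hX i p hp]
  have hwcG : wc ∈ G0 n := by
    rw [hwc]
    refine scale_mem_G0 (inv_ne_zero (hy0 p0 hp0)) ?_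
    have := hfF ⟨p0.1, mem_G0_of_mem_Ghat hp0⟩
    rw [← this]
    exact (f _).2
  clear_value wc
  -- the multiplier
  obtain ⟨i, hi⟩ : ∃ i, c i ≠ 0 := by
    by_contra hcon
    have hcon' : ∀ i, c i = 0 := fun i => not_not.1 fun h => hcon ⟨i, h⟩
    have h1 : (⟨0, by omega⟩ : Fin n) = ⟨1, by omega⟩ := hc (by rw [hcon', hcon'])
    simp at h1
  set ξ : ℂ := c (S.tau i) / c i with hξ
  have hyT : ∀ p ∈ Ghat k, y (T p) = ξ * y p := by
    intro p hp
    have h1 := S.shift i p hp
    have h2 : S.X i (T p) = S.X (S.tau i) p := h1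
    rw [hX i _ (hTm p hp), hX _ p hp] at h2
    rw [hξ]
    field_simp
    linear_combination h2
  have hξc : ∀ j, c (S.tau j) = ξ * c j := by
    intro j
    have h2 : S.X j (T p0) = S.X (S.tau j) p0 := S.shift j p0 hp0
    rw [hX j _ (hTm p0 hp0), hX _ p0 hp0, hyT p0 hp0] at h2
    have h3 : y p0 * c (S.tau j) = y p0 * (ξ * c j) := by linear_combination -h2
    exact mul_left_cancel₀ (hy0 p0 hp0) h3
  have hξ0 : ξ ≠ 0 := by
    intro h0
    have := hyT p0 hp0
    rw [h0, zero_mul] at this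
    exact hy0 _ (hTm p0 hp0) this
  have hscale : scale ξ wc = wc := by
    apply pol_injective
    rw [pol_scale_prod hwcp hξ0, hwcp]
    rw [← Equiv.prod_comp S.tau fun i => (Polynomial.X - C (c i))]
    refine Finset.prod_congr rfl fun j _ => ?_
    rw [hξc j]
  -- the logarithmic period
  have hDexp : ∀ p ∈ Ghat k, Complex.exp (lam (T p) - lam p) = ξ := by
    intro p hp
    rw [Complex.exp_sub, hlam _ (hTm p hp), hlam p hp, hyT p hp]
    exact mul_div_cancel_right₀ _ (hy0 p hp)
  have hDc : ContinuousOn (fun p => lam (T p) - lam p) (Ghat k) :=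
    (hlamc.comp hTc.continuousOn hTm).sub hlamc
  set mu : ℂ := lam (T p0) - lam p0 with hmu
  have hmuall : ∀ p ∈ Ghat k, lam (T p) - lam p = mu := fun p hp =>
    const_of_exp_const hconn hDc hDexp hp hp0
  have hmuexp : Complex.exp mu = ξ := hDexp p0 hp0
  -- descent of kappa
  set u : (Fin (k - 1) → ℂ) × ℂ → ℂ := fun p => lam p - mu * p.2 / (2 * Real.pi * Complex.I) with hu
  have huc : ContinuousOn u (Ghat k) := by
    refine hlamc.sub ?_
    fun_prop
  have hus : ∀ z ∈ G0 k, ∀ l, Complex.exp l = (pol k z).discr →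
      u (z, l + 2 * Real.pi * Complex.I) = u (z, l) := by
    intro z _ l hl
    have h1 := hmuall (z, l) hl
    simp only [hT] at h1
    simp only [hu]
    have h2 := two_pi_I_ne
    field_simp
    linear_combination (2 * Real.pi * Complex.I) * h1
  obtain ⟨hk0c, hk0⟩ := descend (d := fun z : Fin (k - 1) → ℂ => (pol k z).discr) (A := G0 k)
    (continuous_discr k).continuousOn (fun z hz => hz) (u := u) (by rw [← Ghat_eq]; exact huc) hus
  -- the function h
  set E : ℂ × ℂ → (Fin (n - 1) → ℂ) := fun p =>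
    scale (Complex.exp (mu * p.2 / (2 * Real.pi * Complex.I))) wc with hE
  have hEc : Continuous E := by
    rw [hE]
    exact continuous_scale.comp (Continuous.prodMk (by fun_prop) continuous_const)
  have hEs : ∀ x ∈ ({0}ᶜ : Set ℂ), ∀ l, Complex.exp l = x →
      E (x, l + 2 * Real.pi * Complex.I) = E (x, l) := by
    intro x _ l _
    simp only [hE]
    have h2 := two_pi_I_ne
    have h3 : mu * (l + 2 * Real.pi * Complex.I) / (2 * Real.pi * Complex.I) =
        mu * l / (2 * Real.pi * Complex.I) + mu := by field_simp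
    rw [h3, Complex.exp_add, hmuexp, ← scale_scale, hscale]
  obtain ⟨hhc, -⟩ := descend (d := fun x : ℂ => x) (A := ({0}ᶜ : Set ℂ)) continuousOn_id
    (fun x hx => hx) (u := E) hEc.continuousOn hEs
  have hEmem : ∀ p, E p ∈ G0 n := fun p => scale_mem_G0 (Complex.exp_ne_zero _) hwcG
  have hhc' : Continuous fun w : {w : ℂ // w ≠ 0} => E (w.1, Complex.log w.1) :=
    hhc.comp_continuous continuous_subtype_val fun w => w.2
  set h : C({w : ℂ // w ≠ 0}, G0 n) :=
    ⟨fun w => ⟨E (w.1, Complex.log w.1), hEmem _⟩, hhc'.subtype_mk _⟩ with hh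
  -- kappa as a function on G0 k
  set κ : G0 k → ℂ := fun z => u (z.1, Complex.log (pol k z.1).discr) with hκ
  have hκc : Continuous κ := hk0c.comp_continuous continuous_subtype_val fun z => z.2
  have hfκ : ∀ z : G0 k, (f z : Fin (n - 1) → ℂ) =
      scale (Complex.exp (κ z)) (h (dMap k z) : Fin (n - 1) → ℂ) := by
    intro z
    have hz : (z.1, Complex.log (pol k z.1).discr) ∈ Ghat k := log_mem_Ghat z.2
    rw [hfF z, hFy _ hz, ← hlam _ hz]
    show _ = scale (Complex.exp (κ z)) (E ((pol k z.1).discr, Complex.log (pol k z.1).discr))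
    simp only [hE]
    rw [scale_scale, ← Complex.exp_add]
    congr 2
    simp only [hκ, hu]
    ring
  exact splittable_of_factor f h κ hκc hfκ

end Pool.Agent.Helper93.LN
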